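import Pool.Agent.H240.GU.Def

/-!
# GU-6: integrals of continuous functions against eigenfunctions which concentrate on a cylinder
-/

set_option autoImplicit false
set_option linter.unusedSectionVars false

open Set Filter Topology MeasureTheory
open scoped ContDiff ComplexConjugate Real

noncomputable section

namespace Pool.Agent.H181.GU

open Pool.Agent.Y262.EG Pool.Agent.Y262.EX Pool.Agent.Y262.EL Pool.Agent.Y262.QE
open Pool.Agent.Y264.QR Pool.Agent.H240.SC Pool.Agent.H240.SG Pool.Agent.H240.CG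
open Pool.Agent.H240.AL Pool.Agent.H240.GU
open Pool.Agent.H240.AL.I4 (approx2 bound_diff Qx_mono)

/-- a smooth cutoff, `1` for `|x - x0| ≤ s`, with support in `|x - x0| ≤ (s + R) / 2` -/
theorem cutoff2 {x0 R s : ℝ} (hs : 0 < s) (hsR : s < R) : ∃ a : ℝ → ℝ, Ct x0 R a ∧
    (∀ x, |x - x0| ≤ s → a x = 1) ∧ ∀ x, |a x| ≤ 1 := by
  let φ : ContDiffBump x0 := ⟨s, (s + R) / 2, hs, by linarith⟩
  refine ⟨φ, ⟨φ.contDiff, (s + R) / 2, by linarith, by linarith, fun x hx => ?_⟩, fun x hx => ?_,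
    fun x => ?_⟩
  · exact φ.zero_of_le_dist (by rw [Real.dist_eq]; exact hx)
  · exact φ.one_of_mem_closedBall (by rw [Metric.mem_closedBall, Real.dist_eq]; exact hx)
  · rw [abs_of_nonneg φ.nonneg]; exact φ.le_one

/-- `GU-6` -/
theorem stYU (hL : StLimI) : StYU := by
  intro M P _ _ _ _ _ _ Ω φ pr q μ G x0 δ ρ ρ' ε h hUT hμ hρ hρρ' hρ'δ hG hε u lam l hu hint hone
    htt hloc F hF hFε
  have hδ := h.δp
  have hpi : 0 < 2 * π := by positivity
  obtain ⟨hcv, hfin, -, -⟩ := tCVM M P Ω φ pr q μ hUT hμ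
  have huc : ∀ j, Continuous (u j) := fun j =>
    Pool.Agent.H240.NL.cont_of hUT (hu j).1.continuousOn
  set R : ℝ := (ρ' + δ) / 2 with hR
  have hρ'p : 0 < ρ' := by linarith
  have hρ'R : ρ' < R := by linarith
  have hRp : 0 < R := by linarith
  have hRδ : R < δ := by linarith
  set w : ℝ → ℝ := fun x => Real.exp (2 * G x) with hw
  set g : ℕ → ℂ → ℝ := fun j z => w z.re * (u j (pr z)) ^ 2 with hg
  have hg0 : ∀ j z, 0 ≤ g j z := fun j z => mul_nonneg (Real.exp_pos _).le (sq_nonneg _)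
  have hQΩ : ∀ r ≤ δ, Qx x0 r ⊆ Ω := fun r hr z hz => h.sub (lt_of_lt_of_le hz.1 hr)
  have hQi : ∀ r ≤ δ, InjOn pr (Qx x0 r) := by
    intro r hr
    have h1 : Qx x0 r ⊆ Qx x0 δ := fun z hz => ⟨lt_of_lt_of_le hz.1 hr, hz.2⟩
    exact h.inj.mono h1
  -- change of variables
  have hchange : ∀ (B : Set ℂ) (j : ℕ) (F : M → ℝ), MeasurableSet B → B ⊆ Qx x0 R → Continuous F →
      ∫ z in B, F (pr z) * g j z = ∫ x in pr '' B, F x * (u j x) ^ 2 ∂μ := by
    intro B j F hB hBQ hF
    have hBΩ : B ⊆ Ω := hBQ.trans (hQΩ R hRδ.le)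
    rw [(hcv B hB hBΩ ((hQi R hRδ.le).mono hBQ)).2.2 (fun x => F x * (u j x) ^ 2)
      (hF.mul ((huc j).pow 2)).measurable]
    refine setIntegral_congr_fun hB fun z hz => ?_
    have h1 := (h.rot z (lt_of_lt_of_le (hBQ hz).1 hRδ.le)).2
    simp only [hg, hw, h1]
    ring
  have hchange1 : ∀ (B : Set ℂ) (j : ℕ), MeasurableSet B → B ⊆ Qx x0 R →
      ∫ z in B, g j z = ∫ x in pr '' B, (u j x) ^ 2 ∂μ := by
    intro B j hB hBQ
    have h1 := hchange B j (fun _ => 1) hB hBQ continuous_const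
    simpa using h1
  -- integrability
  have hwc : ContinuousOn w (Ioo (x0 - δ) (x0 + δ)) := (h.wsm hUT.smooth).continuousOn
  have hgi : ∀ j, IntegrableOn (g j) (Qx x0 R) := by
    intro j
    have hcK : IsCompact (Icc (x0 - R) (x0 + R) ×ℂ Icc 0 (2 * π)) :=
      isCompact_Icc.reProdIm isCompact_Icc
    have hsubK : (Icc (x0 - R) (x0 + R) ×ℂ Icc 0 (2 * π)) ⊆ Sx x0 δ := by
      intro z hz
      rw [Complex.mem_reProdIm] at hz
      show |z.re - x0| < δ
      rw [abs_lt]
      constructor <;> linarith [hz.1.1, hz.1.2]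
    have hgc : ContinuousOn (g j) (Icc (x0 - R) (x0 + R) ×ℂ Icc 0 (2 * π)) := by
      refine ContinuousOn.mul ?_ ?_
      · refine hwc.comp Complex.continuous_re.continuousOn fun z hz => ?_
        have h0 : |z.re - x0| < δ := hsubK hz
        have h1 := abs_lt.1 h0
        exact ⟨by linarith [h1.1], by linarith [h1.2]⟩
      · exact ((hu j).1.continuousOn.mono (hsubK.trans h.sub)).pow 2
    refine (hgc.integrableOn_compact hcK).mono_set fun z hz => ?_
    rw [Complex.mem_reProdIm]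
    have h1 := abs_lt.1 hz.1
    exact ⟨⟨by linarith [h1.1], by linarith [h1.2]⟩, hz.2.1.le, hz.2.2⟩
  have hg1 : ∀ j, ∫ z in Qx x0 R, g j z ≤ 1 := by
    intro j
    rw [hchange1 _ j (qx_meas x0 R) le_rfl, ← hone j]
    exact setIntegral_le_integral (hint j) (Filter.Eventually.of_forall fun x => sq_nonneg _)
  have hQd : ∀ r : ℝ, MeasurableSet (Qx x0 R \ Qx x0 r) := fun r =>
    (qx_meas x0 R).diff (qx_meas x0 r)
  -- the image of the fundamental domain is open
  have hUo : ∀ r ≤ δ, IsOpen (pr '' Qx x0 r) := by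
    intro r hr
    rw [h.img hr]
    refine hUT.opnp _ (isOpen_lt (by fun_prop) continuous_const) fun z hz => ?_
    exact h.sub (lt_of_lt_of_le hz hr)
  have hUc : ∀ r : ℝ, ρ < r → r ≤ δ →
      Tendsto (fun j => ∫ x in (pr '' Qx x0 r)ᶜ, (u j x) ^ 2 ∂μ) l (𝓝 0) := by
    intro r hr hrδ
    refine hloc _ (hUo r hrδ).isClosed_compl.isCompact (disjoint_left.2 ?_)
    rintro x hx ⟨z, hz, rfl⟩
    apply hx
    rw [h.img hrδ]
    exact ⟨z, lt_of_le_of_lt hz hr, rfl⟩
  have hg2 : ∀ r : ℝ, ρ < r → r < R →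
      Tendsto (fun j => ∫ z in Qx x0 R \ Qx x0 r, g j z) l (𝓝 0) := by
    intro r hr hrR
    refine squeeze_zero (fun j => integral_nonneg fun z => hg0 j z) (fun j => ?_)
      (hUc r hr (by linarith))
    rw [hchange1 _ j (hQd r) sdiff_subset]
    refine setIntegral_mono_set (hint j).integrableOn
      (Filter.Eventually.of_forall fun x => sq_nonneg _)
      (Filter.Eventually.of_forall ?_)
    rintro x ⟨z, ⟨hz1, hz2⟩, rfl⟩ ⟨z', hz', he⟩
    have e1 : z' = z := h.inj (Qx_mono (by linarith) hz') (Qx_mono hRδ.le hz1) he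
    rw [e1] at hz'
    exact hz2 hz'
  have hg3 : ∀ r : ℝ, ρ < r → r < R → Tendsto (fun j => ∫ z in Qx x0 r, g j z) l (𝓝 1) := by
    intro r hr hrR
    have h1 : (fun j => ∫ z in Qx x0 r, g j z) =
        fun j => 1 - ∫ x in (pr '' Qx x0 r)ᶜ, (u j x) ^ 2 ∂μ := by
      funext j
      rw [hchange1 _ j (qx_meas x0 r) fun z hz => ⟨lt_trans hz.1 hrR, hz.2⟩]
      have h2 := integral_add_compl (hUo r (by linarith)).measurableSet (hint j)
      rw [hone j] at h2
      linarith
    rw [h1]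
    simpa using (hUc r hr (by linarith)).const_sub 1
  have hIR : Ioo (x0 - R) (x0 + R) ⊆ Ioo (x0 - δ) (x0 + δ) := fun x hx =>
    ⟨by linarith [hx.1], by linarith [hx.2]⟩
  -- the weight is constant on the cylinder
  have hdw : ∀ x, |x - x0| ≤ ρ → deriv w x = 0 := by
    intro x hx
    have hx' := abs_le.1 hx
    have hxI : x ∈ Ioo (x0 - δ) (x0 + δ) := ⟨by linarith [hx'.1], by linarith [hx'.2]⟩
    have hwd : DifferentiableAt ℝ w x :=
      ((h.wsm hUT.smooth).differentiableOn (by simp)).differentiableAt (Ioo_mem_nhds hxI.1 hxI.2)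
    have hGe : G = fun x => Real.log (w x) / 2 := by
      funext x
      simp only [hw, Real.log_exp]
      ring
    have hGd : DifferentiableAt ℝ G x := by
      rw [hGe]
      exact (hwd.log (Real.exp_pos _).ne').div_const 2
    have h1 : HasDerivAt w (Real.exp (2 * G x) * (2 * deriv G x)) x :=
      (hGd.hasDerivAt.const_mul 2).exp
    rw [h1.deriv, hG x hx]
    ring
  have hlim := hL x0 R ρ w l (fun j z => u j (pr z)) lam hρ (by linarith)
    ((h.wsm hUT.smooth).mono hIR)
    (fun x _ => Real.exp_pos _) hdw (fun j => h.sol (hu j) hRδ.le) htt hgi hg1 hg2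
  -- the function on the line
  let U : ℝ → ℝ := fun y => F (pr (x0 + y * Complex.I))
  have hline : ∀ y : ℝ, (x0 + y * Complex.I : ℂ) ∈ Sx x0 δ := fun y => by
    change |(x0 + y * Complex.I : ℂ).re - x0| < δ
    simp [hδ]
  have hU : Continuous U :=
    hF.comp ((hUT.contp.mono h.sub).comp_continuous (by fun_prop) hline)
  have hUp : ∀ y, U (y + 2 * π) = U y := fun y => by
    have := h.p1 (hline y)
    change F _ = F _
    rw [← this]
    congr 2
    push_cast
    ring
  set η : ℝ := ε / 4 with hη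
  have hηp : 0 < η := by positivity
  obtain ⟨b, m, hb, hbu, hbc, hm⟩ := approx2 hU hUp hηp
  obtain ⟨a, ha, ha1, hab1⟩ := cutoff2 (x0 := x0) hρ'p hρ'R
  have hJ := hlim a b ha ⟨ρ', hρρ', ha1⟩ hb
  obtain ⟨B, hB⟩ := isCompact_univ.exists_bound_of_continuousOn hF.continuousOn
  have hB0 : 0 ≤ B := (norm_nonneg _).trans (hB (pr x0) (mem_univ _))
  have hI : ∀ j, Integrable (fun x => F x * (u j x) ^ 2) μ := fun j =>
    (hint j).bdd_mul hF.aestronglyMeasurable
      (Filter.Eventually.of_forall fun x => hB x (mem_univ x))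
  -- bound of `b'`
  set Bb := B + η + |m| with hBb
  have hbb : ∀ y ∈ Icc 0 (2 * π), |deriv b y| ≤ Bb := by
    intro y hy
    have h1 := hbu y hy
    have h2 : |U y| ≤ B := hB _ (mem_univ _)
    have h3 : deriv b y = U y - (U y - (m + deriv b y)) - m := by ring
    rw [h3]
    refine (abs_sub _ _).trans ?_
    have := abs_sub (U y) (U y - (m + deriv b y))
    linarith
  have hBb0 : 0 ≤ Bb := (abs_nonneg _).trans (hbb 0 ⟨le_rfl, hpi.le⟩)
  -- integrability
  have sub1 : Qx x0 ρ' ⊆ Qx x0 R := Qx_mono hρ'R.le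
  have i1 : ∀ j, IntegrableOn (fun z => F (pr z) * g j z) (Qx x0 ρ') := fun j =>
    ((hgi j).mono_set sub1).bdd_mul (c := B)
      ((hF.comp_continuousOn (hUT.contp.mono (hQΩ ρ' hρ'δ.le))).aestronglyMeasurable
        (qx_meas x0 ρ'))
      (Eventually.of_forall fun z => hB _ (mem_univ _))
  have i2 : ∀ j, IntegrableOn (fun z => a z.re * deriv b z.im * g j z) (Qx x0 R) := fun j =>
    (hgi j).bdd_mul (c := Bb)
      (((ha.sm.continuous.comp Complex.continuous_re).mul
        (hbc.comp Complex.continuous_im)).aestronglyMeasurable)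
      ((ae_restrict_iff' (qx_meas _ _)).2 (Eventually.of_forall fun z hz => by
        change |a z.re * deriv b z.im| ≤ Bb
        rw [abs_mul]
        have h1 := hbb z.im ⟨hz.2.1.le, hz.2.2⟩
        have h2 := hab1 z.re
        nlinarith [abs_nonneg (deriv b z.im), abs_nonneg (a z.re)]))
  have hG3 := hg3 ρ' hρρ' hρ'R
  have key : ∀ j, |(∫ x, F x * (u j x) ^ 2 ∂μ) - Av pr x0 F| ≤
      ε + η + |m| * |(∫ z in Qx x0 ρ', g j z) - 1| + η +
        |∫ z in Qx x0 R, a z.re * deriv b z.im * g j z| +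
        (B + Bb) * |(∫ z in Qx x0 ρ', g j z) - 1| := by
    intro j
    set Gj := ∫ z in Qx x0 ρ', g j z with hGj
    have m2 : Gj ≤ ∫ z in Qx x0 R, g j z :=
      setIntegral_mono_set (hgi j) (Eventually.of_forall fun z => hg0 j z) sub1.eventuallyLE
    have m3 := hg1 j
    have m0 : 0 ≤ Gj := integral_nonneg fun z => hg0 j z
    have hG1 : |Gj - 1| = 1 - Gj := by rw [abs_sub_comm, abs_of_nonneg (by linarith)]
    -- the decomposition
    have hUoρ := (hUo ρ' hρ'δ.le).measurableSet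
    have d1 : (∫ x, F x * (u j x) ^ 2 ∂μ) = (∫ z in Qx x0 ρ', F (pr z) * g j z) +
        ∫ x in (pr '' Qx x0 ρ')ᶜ, F x * (u j x) ^ 2 ∂μ := by
      rw [hchange _ j F (qx_meas x0 ρ') sub1 hF]
      exact (integral_add_compl hUoρ (hI j)).symm
    have d2 : Gj + ∫ x in (pr '' Qx x0 ρ')ᶜ, (u j x) ^ 2 ∂μ = 1 := by
      rw [hGj, hchange1 _ j (qx_meas x0 ρ') sub1, ← hone j]
      exact integral_add_compl hUoρ (hint j)
    have e1 : |∫ x in (pr '' Qx x0 ρ')ᶜ, F x * (u j x) ^ 2 ∂μ| ≤ B * |Gj - 1| := by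
      have e2 : B * |Gj - 1| = ∫ x in (pr '' Qx x0 ρ')ᶜ, B * (u j x) ^ 2 ∂μ := by
        rw [integral_const_mul, hG1]
        congr 1
        linarith
      rw [e2, ← Real.norm_eq_abs]
      refine norm_integral_le_of_norm_le ((hint j).integrableOn.const_mul B)
        (Filter.Eventually.of_forall fun x => ?_)
      rw [norm_mul, Real.norm_of_nonneg (sq_nonneg (u j x))]
      exact mul_le_mul_of_nonneg_right (hB x (mem_univ x)) (sq_nonneg _)
    have e2 := bound_diff (h := fun z => a z.re * deriv b z.im) (B := Bb) (qx_meas x0 R)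
      (qx_meas x0 ρ') sub1 (hg0 j) (hgi j) (i2 j) (fun z hz => by
        rw [abs_mul]
        have h1 := hbb z.im ⟨hz.1.2.1.le, hz.1.2.2⟩
        have h2 := hab1 z.re
        nlinarith [abs_nonneg (deriv b z.im), abs_nonneg (a z.re)])
    have e3 : |(∫ z in Qx x0 ρ', F (pr z) * g j z) - (m * Gj +
        ∫ z in Qx x0 ρ', a z.re * deriv b z.im * g j z)| ≤ ε + η := by
      have i3 := i1 j
      have i4 : IntegrableOn (fun z => a z.re * deriv b z.im * g j z) (Qx x0 ρ') :=
        (i2 j).mono_set sub1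
      have i5 : IntegrableOn (g j) (Qx x0 ρ') := (hgi j).mono_set sub1
      have i6 : IntegrableOn (fun z => m * g j z) (Qx x0 ρ') := i5.const_mul m
      have i7 : IntegrableOn (fun z => m * g j z + a z.re * deriv b z.im * g j z)
          (Qx x0 ρ') := i6.add i4
      rw [hGj, ← integral_const_mul, ← integral_add i6 i4, ← integral_sub i3 i7]
      have h1 : ‖∫ z in Qx x0 ρ', (F (pr z) * g j z - (m * g j z +
          a z.re * deriv b z.im * g j z))‖ ≤ ∫ z in Qx x0 ρ', (ε + η) * g j z := by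
        refine norm_integral_le_of_norm_le (i5.const_mul _) ?_
        refine (ae_restrict_iff' (qx_meas _ _)).2 (Eventually.of_forall fun z hz => ?_)
        rw [ha1 z.re hz.1.le]
        have h2 : F (pr z) * g j z - (m * g j z + 1 * deriv b z.im * g j z) =
          ((F (pr z) - U z.im) + (U z.im - (m + deriv b z.im))) * g j z := by ring
        rw [h2, Real.norm_eq_abs, abs_mul, abs_of_nonneg (hg0 j z)]
        refine mul_le_mul_of_nonneg_right ?_ (hg0 j z)
        exact (abs_add_le _ _).trans (add_le_add (hFε z hz.1.le) (hbu z.im ⟨hz.2.1.le, hz.2.2⟩))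
      rw [integral_const_mul] at h1
      refine h1.trans ?_
      have h3 : (ε + η) * Gj ≤ (ε + η) * 1 :=
        mul_le_mul_of_nonneg_left (by linarith) (by linarith)
      linarith
    have hmm : |m * Gj - Av pr x0 F| ≤ |m| * |Gj - 1| + η := by
      have : m * Gj - Av pr x0 F = m * (Gj - 1) + (m - Av pr x0 F) := by ring
      rw [this]
      refine (abs_add_le _ _).trans ?_
      rw [abs_mul]
      have : |m - Av pr x0 F| ≤ η := hm
      linarith
    have e2' : |(∫ z in Qx x0 R, a z.re * deriv b z.im * g j z) -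
        ∫ z in Qx x0 ρ', a z.re * deriv b z.im * g j z| ≤ Bb * |Gj - 1| := e2.trans (by
      rw [hG1]; exact mul_le_mul_of_nonneg_left (by linarith) hBb0)
    have t1 := abs_le.1 e1
    have t2 := abs_le.1 e2'
    have t3 := abs_le.1 e3
    have t4 := abs_le.1 hmm
    have t5 := abs_le.1 (le_refl |∫ z in Qx x0 R, a z.re * deriv b z.im * g j z|)
    have t6 : (B + Bb) * |Gj - 1| = B * |Gj - 1| + Bb * |Gj - 1| := by ring
    rw [d1, abs_le, t6]
    constructor <;> linarith [t1.1, t1.2, t2.1, t2.2, t3.1, t3.2, t4.1, t4.2, t5.1, t5.2]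
  have hT : Tendsto (fun j => ε + η + |m| * |(∫ z in Qx x0 ρ', g j z) - 1| + η +
        |∫ z in Qx x0 R, a z.re * deriv b z.im * g j z| +
        (B + Bb) * |(∫ z in Qx x0 ρ', g j z) - 1|) l
      (𝓝 (ε + η + |m| * |(1 : ℝ) - 1| + η + |(0 : ℝ)| + (B + Bb) * |(1 : ℝ) - 1|)) := by
    have h1 := (hG3.sub_const 1).abs
    exact (((tendsto_const_nhds.add (h1.const_mul _)).add tendsto_const_nhds).add
      hJ.abs).add (h1.const_mul _)
  have hlt : ε + η + |m| * |(1 : ℝ) - 1| + η + |(0 : ℝ)| + (B + Bb) * |(1 : ℝ) - 1| < 2 * ε := by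
    rw [sub_self, abs_zero, mul_zero, mul_zero]
    linarith
  filter_upwards [hT.eventually_lt_const hlt] with j hj
  exact (key j).trans_lt hj

end Pool.Agent.H181.GU

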