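import Pool.Agent.H606.GU.Stm2

/-! Task VF2 of project GU2 (helper606): the second moment of the number of `k`-tuples from the
upper half at the level `2 k` alone (the estimate `fixed` is from task VF, helper225). -/

open MeasureTheory Filter Topology Finset
open Pool.Agent.H606.GU

namespace Pool.Agent.H181.GU.VF2

theorem fixed (hAV : S_AV) (hTC : S_TC) (hSETS : S_SETS) {N : ℕ} (x : Fin N → ℝ) (R : ℝ)
    (k : ℕ) (a : ℝ) (hk : 1 ≤ k) (ha : 0 < a) (D0 : ℝ) (hD0 : 0 < D0) (M : ℕ) (hM : 1 ≤ M)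
    (h1 : (∫ t : ℝ, (tc x a 0 t : ℝ) ^ (2 * k)) / R ≤ D0)
    (h2 : ∀ i ∈ range M, ∀ i' ∈ range M, Av x R (two k a i i') ≤ mm k a ^ 2 + 1 / (M : ℝ) ^ 2)
    (h3 : 0 < R) :
    (∫ t : ℝ, FF x a k M t ^ 2) / R ≤ ((M : ℝ) * mm k a) ^ 2 + (D0 + 1) * M := by
  have : Nonempty (Fin k) := ⟨⟨0, hk⟩⟩
  have hMR : (1 : ℝ) ≤ M := by exact_mod_cast hM
  obtain ⟨c1, -, c3, c4, c5, -, c7, -, -⟩ := hTC _ x a ha
  -- the number of `k`-tuples in a tile
  let d : ℕ → ℝ → ℝ := fun i t => ((tc x a i t).descFactorial k : ℝ)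
  have hdint : ∀ i, Integrable (d i) := by
    intro i
    obtain ⟨g1, g2, -⟩ := (hSETS k a hk ha).1 i
    have := (hAV (Fin k) N x R h3).1 _ g1 g2
    refine this.congr (Eventually.of_forall fun t => ?_)
    show ((cnt x (tile k a i) t : ℕ) : ℝ) = ((tc x a i t).descFactorial k : ℝ)
    rw [c1]
  have htint : ∀ i, Integrable (fun t => (tc x a i t : ℝ)) := by
    intro i
    obtain ⟨g1, g2, -⟩ := (hSETS 1 a le_rfl ha).1 i
    have := (hAV (Fin 1) N x R h3).1 _ g1 g2
    refine this.congr (Eventually.of_forall fun t => ?_)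
    show ((cnt x (tile 1 a i) t : ℕ) : ℝ) = (tc x a i t : ℝ)
    rw [← c1, Nat.descFactorial_one]
  have htpow : ∀ i, Integrable (fun t => (tc x a i t : ℝ) ^ (2 * k)) := by
    intro i
    refine ((htint i).const_mul ((N : ℝ) ^ (2 * k - 1))).mono'
      ((c5 i).pow_const _).aestronglyMeasurable (Eventually.of_forall fun t => ?_)
    have e : 2 * k = (2 * k - 1) + 1 := by omega
    have hb : (tc x a i t : ℝ) ≤ N := by exact_mod_cast c7 i t
    rw [Real.norm_eq_abs, abs_of_nonneg (by positivity)]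
    conv_lhs => rw [e, pow_succ]
    gcongr
  -- the products
  have hprod : ∀ i i', Integrable (fun t => d i t * d i' t) := by
    intro i i'
    refine ((hdint i').const_mul ((N : ℝ) ^ k)).mono'
      ((hdint i).aestronglyMeasurable.mul (hdint i').aestronglyMeasurable)
      (Eventually.of_forall fun t => ?_)
    have h0 : ∀ i, 0 ≤ d i t := fun i => Nat.cast_nonneg _
    have hb : d i t ≤ (N : ℝ) ^ k := by
      show ((tc x a i t).descFactorial k : ℝ) ≤ (N : ℝ) ^ k
      have : (tc x a i t).descFactorial k ≤ N ^ k :=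
        (Nat.descFactorial_le_pow _ _).trans (Nat.pow_le_pow_left (c7 i t) k)
      exact_mod_cast this
    rw [Real.norm_eq_abs, abs_of_nonneg (mul_nonneg (h0 i) (h0 i'))]
    exact mul_le_mul_of_nonneg_right hb (h0 i')
  have hsq : ∀ t, FF x a k M t ^ 2 = ∑ i ∈ range M, ∑ i' ∈ range M, d i t * d i' t := by
    intro t
    rw [FF, sq, Finset.sum_mul_sum]
  have hint : ∫ t : ℝ, FF x a k M t ^ 2 =
      ∑ i ∈ range M, ∑ i' ∈ range M, ∫ t, d i t * d i' t := by
    simp_rw [hsq]
    rw [integral_finsetSum _ fun i _ => integrable_finsetSum _ fun i' _ => hprod i i']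
    refine Finset.sum_congr rfl fun i _ => ?_
    rw [integral_finsetSum _ fun i' _ => hprod i i']
  have hbound : ∀ i ∈ range M, ∀ i' ∈ range M, (∫ t, d i t * d i' t) / R ≤
      (mm k a ^ 2 + 1 / (M : ℝ) ^ 2) + (if i = i' then D0 else 0) := by
    intro i hi i' hi'
    by_cases h : i = i'
    · subst h
      rw [if_pos rfl]
      have e1 : (∫ t, d i t * d i t) / R ≤ D0 := by
        refine le_trans ?_ h1
        apply div_le_div_of_nonneg_right _ h3.le
        have e2 : ∫ t : ℝ, (tc x a 0 t : ℝ) ^ (2 * k) = ∫ t : ℝ, (tc x a i t : ℝ) ^ (2 * k) := by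
          have := integral_add_right_eq_self (μ := (volume : Measure ℝ))
            (fun t : ℝ => (tc x a 0 t : ℝ) ^ (2 * k)) ((i : ℝ) * a)
          rw [← this]
          refine integral_congr_ae (Eventually.of_forall fun t => ?_)
          show (tc x a 0 (t + (i : ℝ) * a) : ℝ) ^ (2 * k) = (tc x a i t : ℝ) ^ (2 * k)
          rw [c4 i t]
        rw [e2]
        refine integral_mono (hprod i i) (htpow i) fun t => ?_
        show d i t * d i t ≤ (tc x a i t : ℝ) ^ (2 * k)
        have hb : d i t ≤ (tc x a i t : ℝ) ^ k := by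
          show ((tc x a i t).descFactorial k : ℝ) ≤ (tc x a i t : ℝ) ^ k
          have := Nat.descFactorial_le_pow (tc x a i t) k
          exact_mod_cast this
        have h0 : 0 ≤ d i t := Nat.cast_nonneg _
        rw [two_mul, pow_add]
        exact mul_le_mul hb hb h0 (by positivity)
      have : 0 ≤ mm k a ^ 2 + 1 / (M : ℝ) ^ 2 := by positivity
      linarith
    · rw [if_neg h, add_zero]
      have e1 : (∫ t, d i t * d i' t) / R = Av x R (two k a i i') := by
        unfold Av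
        congr 1
        refine integral_congr_ae (Eventually.of_forall fun t => ?_)
        show ((tc x a i t).descFactorial k : ℝ) * ((tc x a i' t).descFactorial k : ℝ) = _
        rw [← Nat.cast_mul, c3 k i i' t h]
      rw [e1]
      exact h2 i hi i' hi'
  rw [hint, Finset.sum_div]
  simp_rw [Finset.sum_div]
  refine (Finset.sum_le_sum fun i hi => Finset.sum_le_sum fun i' hi' => hbound i hi i' hi').trans ?_
  have e3 : ∑ i ∈ range M, ∑ i' ∈ range M,
      ((mm k a ^ 2 + 1 / (M : ℝ) ^ 2) + (if i = i' then D0 else 0)) =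
      (M : ℝ) * M * (mm k a ^ 2 + 1 / (M : ℝ) ^ 2) + M * D0 := by
    simp_rw [Finset.sum_add_distrib]
    have e4 : ∑ i ∈ range M, ∑ i' ∈ range M, (if i = i' then D0 else 0) = M * D0 := by
      rw [Finset.sum_congr rfl fun i hi => by rw [Finset.sum_ite_eq, if_pos hi]]
      simp
    rw [e4]
    simp
    ring
  rw [e3]
  have e5 : (M : ℝ) * M * (mm k a ^ 2 + 1 / (M : ℝ) ^ 2) = ((M : ℝ) * mm k a) ^ 2 + 1 := by
    field_simp
  rw [e5]
  nlinarith

theorem t_VF2 (hAV : S_AV) (hTC : S_TC) (hINT : S_INT) (hUPC : S_UPC) (hSETS : S_SETS)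
    (hMOM : S_MOM) (hAVE : S_AVE) : S_VF2 := by
  intro C k a hk ha hUp
  obtain ⟨D0, hD0, hmom⟩ := hMOM C (2 * k) 1 (by omega) zero_le_one hUp
    (2 * k) (by omega) le_rfl a ha
  refine ⟨D0 + 1, by linarith, fun M hM => ?_⟩
  have : Nonempty (Fin k) := ⟨⟨0, hk⟩⟩
  have hMR : (1 : ℝ) ≤ M := by exact_mod_cast hM
  have hUp2 : Up C (Fin 2 × Fin k) 1 :=
    (hAVE (Fin (2 * k)) (Fin 2 × Fin k) finProdFinEquiv.symm).2 C 1 hUp
  have hoff : ∀ᶠ T in atTop, ∀ i ∈ range M, ∀ i' ∈ range M,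
      Av (C.x T) (C.R T) (two k a i i') ≤ mm k a ^ 2 + 1 / (M : ℝ) ^ 2 := by
    rw [Filter.eventually_all_finset]
    intro i _
    rw [Filter.eventually_all_finset]
    intro i' _
    obtain ⟨h1, h2, h3⟩ := (hSETS k a hk ha).2.2 i i'
    filter_upwards [hUPC C (Fin 2 × Fin k) 1 zero_le_one hUp2 _ h1 h2 h3 (1 / (M : ℝ) ^ 2)
      (by positivity)] with T hT
    have := (hINT k a hk ha).2.2.2.2.1 i i'
    linarith
  have hR : ∀ᶠ T in atTop, 0 < C.R T := C.hR.eventually_gt_atTop 0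
  filter_upwards [hmom, hoff, hR] with T h1 h2 h3
  exact fixed hAV hTC hSETS (C.x T) (C.R T) k a hk ha D0 hD0 M hM h1 h2 h3

end Pool.Agent.H181.GU.VF2
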